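import Pool.Agent.Helper14.TR.Defs

/-!
Project TR (MP_b8862a_ag), TR-9e: tensors of type `(1, 1)`.
-/

set_option linter.unusedSectionVars false

open Matrix

namespace MH

variable {n : Type*} [Fintype n] [DecidableEq n]

/-- the tensor of type `(1, 1)` of a matrix -/
def t11 (T : Matrix n n ℂ) : (Fin 1 ⊕ Fin 1 → n) → ℂ := fun i => T (i (Sum.inl 0)) (i (Sum.inr 0))

theorem t11_inj {A B : Matrix n n ℂ} : t11 A = t11 B ↔ A = B := by
  constructor
  · intro h
    ext i j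
    have := congrFun h (Sum.elim (fun _ => i) (fun _ => j))
    simpa [t11] using this
  · rintro rfl; rfl

private theorem sum_fin11 {M : Type*} [AddCommMonoid M] (f : (Fin 1 ⊕ Fin 1 → n) → M) :
    ∑ j : Fin 1 ⊕ Fin 1 → n, f j = ∑ k : n, ∑ l : n, f (Sum.elim (fun _ => k) (fun _ => l)) := by
  rw [← Fintype.sum_prod_type']
  refine Fintype.sum_equiv ((Equiv.sumArrowEquivProdArrow (Fin 1) (Fin 1) n).trans
    ((Equiv.funUnique (Fin 1) n).prodCongr (Equiv.funUnique (Fin 1) n))) _ _ fun j => ?_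
  congr 1
  funext x
  rcases x with x | x
  · have : x = 0 := Subsingleton.elim _ _
    subst this
    rfl
  · have : x = 0 := Subsingleton.elim _ _
    subst this
    rfl

theorem actF_t11 (g g' T : Matrix n n ℂ) : actF (slot 1 1 g g') (t11 T) = t11 (g * T * g') := by
  funext i
  unfold actF t11
  rw [sum_fin11, Matrix.mul_apply]
  simp only [Fintype.prod_sum_type, Fin.prod_univ_one, slot, Sum.elim_inl, Sum.elim_inr,
    Matrix.transpose_apply, Matrix.mul_apply, Finset.sum_mul]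
  rw [Finset.sum_comm]
  refine Finset.sum_congr rfl fun l _ => Finset.sum_congr rfl fun k _ => ?_
  ring

theorem fix_t11 (g : GL n ℂ) (T : Matrix n n ℂ) :
    actF (slot 1 1 (g : Matrix n n ℂ) ((g⁻¹ : GL n ℂ) : Matrix n n ℂ)) (t11 T) = t11 T ↔
      (g : Matrix n n ℂ) * T = T * (g : Matrix n n ℂ) := by
  rw [actF_t11, t11_inj]
  have h1 : ((g⁻¹ : GL n ℂ) : Matrix n n ℂ) * (g : Matrix n n ℂ) = 1 := by
    rw [← Units.val_mul, inv_mul_cancel, Units.val_one]
  have h2 : (g : Matrix n n ℂ) * ((g⁻¹ : GL n ℂ) : Matrix n n ℂ) = 1 := by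
    rw [← Units.val_mul, mul_inv_cancel, Units.val_one]
  constructor
  · intro h
    calc (g : Matrix n n ℂ) * T = ((g : Matrix n n ℂ) * T * ((g⁻¹ : GL n ℂ) : Matrix n n ℂ)) * (g : Matrix n n ℂ) := by
          rw [mul_assoc _ _ (g : Matrix n n ℂ), h1, mul_one]
      _ = _ := by rw [h]
  · intro h
    rw [h, mul_assoc, h2, mul_one]

theorem dL_t11 (X T : Matrix n n ℂ) : dL 1 1 (t11 T) X = t11 (X * T - T * X) := by
  have e1 : Function.update (fun _ : Fin 1 ⊕ Fin 1 => (1 : Matrix n n ℂ)) (Sum.inl 0) (lslot 1 1 X (Sum.inl 0)) =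
      slot 1 1 X 1 := by
    funext k
    rcases k with k | k
    · have : k = 0 := Subsingleton.elim _ _
      subst this
      rw [Function.update_self]
      rfl
    · rw [Function.update_of_ne (by simp)]
      simp [slot]
  have e2 : Function.update (fun _ : Fin 1 ⊕ Fin 1 => (1 : Matrix n n ℂ)) (Sum.inr 0) (lslot 1 1 X (Sum.inr 0)) =
      slot 1 1 1 (-X) := by
    funext k
    rcases k with k | k
    · rw [Function.update_of_ne (by simp)]
      simp [slot]
    · have : k = 0 := Subsingleton.elim _ _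
      subst this
      rw [Function.update_self]
      simp [slot, lslot]
  rw [dL_apply]
  unfold dact
  rw [Fintype.sum_sum_type, Fin.sum_univ_one, Fin.sum_univ_one, e1, e2, actF_t11, actF_t11]
  funext i
  simp only [t11, Pi.add_apply, mul_one, one_mul, mul_neg, Matrix.sub_apply, Matrix.neg_apply]
  ring

variable {m : ℤ} {Q : Matrix n n ℚ} {S : Finset ℤ} {P : ℤ → Matrix n n ℂ} {Γ : Subgroup (GL n ℂ)}

private theorem cochar_inv85 (H : IsHS m Q S P) {z : ℂ} (hz : z ≠ 0) : cochar S P z * cochar S P z⁻¹ = 1 := by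
  unfold cochar
  rw [IsHS.sum_mul_sum H, ← H.sum]
  refine Finset.sum_congr rfl fun p _ => ?_
  rw [← mul_zpow, mul_inv_cancel₀ hz, _root_.one_zpow, one_smul]

/-- The conjugates of the cocharacter lie in the Mumford-Tate group. -/
theorem cochar_aut_mem (H : IsHS m Q S P) (σ : ℂ ≃+* ℂ) {z : ℂ} (hz : z ≠ 0) :
    ∃ g ∈ MT S P, (g : Matrix n n ℂ) = (cochar S P z).map σ := by
  have h1 := cochar_inv85 H hz
  have h2 : cochar S P z⁻¹ * cochar S P z = 1 := by
    have := cochar_inv85 H (inv_ne_zero hz)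
    rwa [inv_inv] at this
  have m1 : (cochar S P z).map σ * (cochar S P z⁻¹).map σ = 1 := by
    rw [← Matrix.map_mul, h1, Matrix.map_one _ (map_zero σ) (map_one σ)]
  have m2 : (cochar S P z⁻¹).map σ * (cochar S P z).map σ = 1 := by
    rw [← Matrix.map_mul, h2, Matrix.map_one _ (map_zero σ) (map_one σ)]
  refine ⟨⟨(cochar S P z).map σ, (cochar S P z⁻¹).map σ, m1, m2⟩, ?_, rfl⟩
  intro a b t ht
  have h3 := ht z hz
  funext i
  have h4 := actF_map (σ : ℂ →+* ℂ) (slot a b (cochar S P z) (cochar S P z⁻¹)) (tC t) i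
  rw [h3] at h4
  have e1 : (fun j => (σ : ℂ →+* ℂ) (tC t j)) = tC t := funext fun j => by simp [tC]
  have e2 : (σ : ℂ →+* ℂ) (tC t i) = tC t i := congrFun e1 i
  rw [e1, e2] at h4
  refine Eq.trans ?_ h4
  congr 1
  funext k
  rcases k with k | k
  · rfl
  · rfl

/-- A matrix whose tensor is fixed by the Mumford-Tate group commutes with the conjugates of `h`. -/
theorem comm_of_MTfix (H : IsHS m Q S P) {T : Matrix n n ℂ} (hT : MTfix S P 1 1 (t11 T)) (σ : ℂ ≃+* ℂ) :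
    T * (∑ p ∈ S, ((p - m : ℤ) : ℂ) • P p).map σ = (∑ p ∈ S, ((p - m : ℤ) : ℂ) • P p).map σ * T := by
  have hI : Idm S (fun p => (P p).map σ) := by
    refine ⟨fun p q => ?_, ?_⟩
    · rw [← Matrix.map_mul, H.mul]
      split_ifs
      · rfl
      · exact Matrix.map_zero _ (map_zero σ)
    · have h1 := congrArg (fun Y : Matrix n n ℂ => Y.map (σ : ℂ →+* ℂ)) H.sum
      rw [Matrix.map_one _ (map_zero _) (map_one _)] at h1
      rw [← h1]
      ext i j
      simp [Matrix.sum_apply]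
  have hc : ∀ z : ℂ, (cochar S P z).map σ = ∑ p ∈ S, (σ z) ^ p • (P p).map σ := by
    intro z
    unfold cochar
    ext i j
    simp [Matrix.sum_apply]
  have h1 : ∀ z : ℂ, z ≠ 0 → actF (slot 1 1 (∑ p ∈ S, z ^ p • (P p).map σ) (∑ p ∈ S, z⁻¹ ^ p • (P p).map σ)) (t11 T) =
      t11 T := by
    intro z hz
    have hw : σ (σ.symm z) = z := σ.apply_symm_apply z
    have hw0 : σ.symm z ≠ 0 := fun h => hz (by rw [← hw, h, map_zero])
    obtain ⟨g, hg, hgc⟩ := cochar_aut_mem H σ hw0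
    have h2 := (fix_t11 g T).1 (hT g hg)
    have h3 : (cochar S P (σ.symm z)).map σ * (cochar S P (σ.symm z)⁻¹).map σ = 1 := by
      rw [← Matrix.map_mul, cochar_inv85 H hw0, Matrix.map_one _ (map_zero σ) (map_one σ)]
    rw [hgc] at h2
    rw [hc, hw] at h2 h3
    rw [hc, map_inv₀, hw] at h3
    rw [actF_t11, t11_inj, h2, mul_assoc, h3, mul_one]
  have h2 := (hI.inv_iff 1 1 (t11 T)).1 h1
  rw [dL_t11] at h2
  have h3 : (∑ p ∈ S, (p : ℂ) • (P p).map σ) * T - T * (∑ p ∈ S, (p : ℂ) • (P p).map σ) = 0 :=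
    t11_inj.1 (h2.trans (by funext i; rfl))
  have h4 : (∑ p ∈ S, ((p - m : ℤ) : ℂ) • P p).map σ = ∑ p ∈ S, (p : ℂ) • (P p).map σ - (m : ℂ) • 1 := by
    have h5 := hI.sum
    rw [← h5, Finset.smul_sum, ← Finset.sum_sub_distrib]
    ext i j
    simp only [Matrix.map_apply, Matrix.sum_apply, Matrix.smul_apply, Matrix.sub_apply, smul_eq_mul, map_sum, map_mul,
      map_intCast]
    refine Finset.sum_congr rfl fun p _ => ?_
    push_cast
    ring
  rw [h4, mul_sub, sub_mul, mul_smul_comm, smul_mul_assoc, mul_one, one_mul]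
  rw [sub_eq_zero] at h3
  rw [h3]

/-- The tensor of an endomorphism of the Hodge structure is fixed by the Mumford-Tate group. -/
theorem MTfix_of_comm (H : IsHS m Q S P) {A : Matrix n n ℚ} (hA : ∀ p, toC A * P p = P p * toC A) :
    MTfix S P 1 1 (t11 (toC A)) := by
  intro g hg
  have h1 : tC (fun i : Fin 1 ⊕ Fin 1 → n => A (i (Sum.inl 0)) (i (Sum.inr 0))) = t11 (toC A) := by
    funext i
    rfl
  have h2 : IsHodgeTensor S P 1 1 (fun i : Fin 1 ⊕ Fin 1 → n => A (i (Sum.inl 0)) (i (Sum.inr 0))) := by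
    intro z hz
    rw [h1, actF_t11, t11_inj]
    have h3 : cochar S P z * toC A = toC A * cochar S P z := by
      unfold cochar
      rw [Finset.sum_mul, Finset.mul_sum]
      refine Finset.sum_congr rfl fun p _ => ?_
      rw [smul_mul_assoc, mul_smul_comm, hA]
    rw [h3, mul_assoc, cochar_inv85 H hz, mul_one]
  have h3 := hg 1 1 _ h2
  rw [h1] at h3
  exact h3

/-- Finitely many endomorphisms commute with a subgroup of finite index. -/
private theorem fin_comm85 (F : Finset (Matrix n n ℂ))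
    (hF : ∀ x ∈ F, ∃ Γ', FI Γ' Γ ∧ ∀ g ∈ Γ', (g : Matrix n n ℂ) * x = x * (g : Matrix n n ℂ)) :
    ∃ Γ', FI Γ' Γ ∧ ∀ g ∈ Γ', ∀ x ∈ F, (g : Matrix n n ℂ) * x = x * (g : Matrix n n ℂ) := by
  classical
  induction F using Finset.induction_on with
  | empty => exact ⟨Γ, ⟨le_rfl, by rw [Subgroup.relIndex_self]; norm_num⟩, fun _ _ x hx => absurd hx (by simp)⟩
  | insert a F _ ih =>
    obtain ⟨Γ₁, h1, h2⟩ := ih fun x hx => hF x (Finset.mem_insert_of_mem hx)
    obtain ⟨Γ₂, h3, h4⟩ := hF a (Finset.mem_insert_self a F)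
    refine ⟨Γ₁ ⊓ Γ₂, ⟨inf_le_left.trans h1.1, Subgroup.relIndex_inf_ne_zero h1.2 h3.2⟩, fun g hg x hx => ?_⟩
    obtain ⟨hg1, hg2⟩ := Subgroup.mem_inf.1 hg
    rcases Finset.mem_insert.1 hx with rfl | hx
    · exact h4 g hg2
    · exact h2 g hg1 x hx

/-- TR-9e, the descent being an hypothesis. -/
theorem centEC_of' (H : IsHS m Q S P)
    (hdes : ∀ T : Matrix n n ℂ, (∀ σ : ℂ ≃+* ℂ, T * (∑ p ∈ S, ((p - m : ℤ) : ℂ) • P p).map σ =
      (∑ p ∈ S, ((p - m : ℤ) : ℂ) • P p).map σ * T) → T ∈ EC P)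
    (h11 : ∀ t : (Fin 1 ⊕ Fin 1 → n) → ℂ, IsTateTensor Γ 1 1 t ↔ MTfix S P 1 1 t) : CentEC P Γ := by
  refine ⟨fun Γ' hΓ T hT => ?_, ?_⟩
  · refine hdes T (comm_of_MTfix H ((h11 _).1 ⟨Γ', hΓ.1, hΓ.2, fun g hg => ?_⟩))
    exact (fix_t11 g T).2 (hT g hg)
  · obtain ⟨B, hB, hspan, hli⟩ := exists_linearIndependent ℂ
      {x : Matrix n n ℂ | ∃ A : Matrix n n ℚ, (∀ p, toC A * P p = P p * toC A) ∧ x = toC A}
    have hfin : B.Finite := hli.setFinite
    obtain ⟨Γ', h1, h2⟩ := fin_comm85 (Γ := Γ) hfin.toFinset (fun x hx => by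
      obtain ⟨A, hA, rfl⟩ := hB (hfin.mem_toFinset.1 hx)
      obtain ⟨Γ', h1, h2, h3⟩ := (h11 _).2 (MTfix_of_comm H hA)
      exact ⟨Γ', ⟨h1, h2⟩, fun g hg => (fix_t11 g _).1 (h3 g hg)⟩)
    refine ⟨Γ', h1, fun g hg x hx => ?_⟩
    have hx' : x ∈ Submodule.span ℂ B := by
      rw [hspan]
      exact hx
    clear hx
    induction hx' using Submodule.span_induction with
    | mem x hxB => exact h2 g hg x (hfin.mem_toFinset.2 hxB)
    | zero => rw [mul_zero, zero_mul]
    | add x y _ _ ihx ihy => rw [mul_add, add_mul, ihx, ihy]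
    | smul c x _ ih => rw [mul_smul_comm, smul_mul_assoc, ih]

end MH
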