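import Pool.Agent.Helper54.TR.EC
import Pool.Agent.Helper85.TR.Fin0

/-!
Project TR (MP_b8862a_ag), block TR-9e: the endomorphisms of the representation are the elements of `EC`.
-/

set_option linter.unusedSectionVars false

open Matrix

namespace MH

variable {n : Type*} [Fintype n] [DecidableEq n] {m : ℤ} {Q : Matrix n n ℚ} {S : Finset ℤ} {P : ℤ → Matrix n n ℂ}

theorem centEC_of {Γ : Subgroup (GL n ℂ)} (H : IsHS m Q S P)
    (h11 : ∀ t : (Fin 1 ⊕ Fin 1 → n) → ℂ, IsTateTensor Γ 1 1 t ↔ MTfix S P 1 1 t) : CentEC P Γ :=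
  centEC_of' H (fun _ hT => descentE H hT) h11

end MH
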